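import Mathlib

set_option autoImplicit false

namespace Pool.Agent.H3.Sv

open Finset

def Good (m k : ℕ) (L : Finset ℕ) (F : ℕ → ℝ) (W R : ℝ) : Prop :=
  ∀ q : ℕ, 0 < q → (∀ p ∈ L, Nat.Coprime q p) →
    |∑ n ∈ (Ioc m (m + k)).filter (q ∣ ·), F n - (k : ℝ) / q * W| ≤ R

lemma good_one (m k : ℕ) : Good m k ∅ (fun _ => 1) 1 1 := by
  intro q hq _
  have h1 : ((Ioc m (m + k)).filter (q ∣ ·)).card + m / q = (m + k) / q := by
    rw [← Nat.Ioc_filter_dvd_card_eq_div (m + k) q, ← Nat.Ioc_filter_dvd_card_eq_div m q, add_comm,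
      ← Finset.card_union_of_disjoint]
    · congr 1
      ext n
      simp only [Finset.mem_union, Finset.mem_filter, Finset.mem_Ioc]
      constructor
      · rintro (h | h)
        · exact ⟨⟨h.1.1, by omega⟩, h.2⟩
        · exact ⟨⟨by omega, h.1.2⟩, h.2⟩
      · rintro ⟨h, h'⟩
        by_cases hn : n ≤ m
        · left; exact ⟨⟨h.1, hn⟩, h'⟩
        · right; exact ⟨⟨by omega, h.2⟩, h'⟩
    · rw [Finset.disjoint_left]
      intro n hn hn'
      simp only [Finset.mem_filter, Finset.mem_Ioc] at hn hn'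
      omega
  have hqR : (0 : ℝ) < q := by exact_mod_cast hq
  have h2 : (((Ioc m (m + k)).filter (q ∣ ·)).card : ℝ) + ((m / q : ℕ) : ℝ) = (((m + k) / q : ℕ) : ℝ) := by exact_mod_cast h1
  have u1 : (((m + k) / q : ℕ) : ℝ) ≤ ((m : ℝ) + k) / q := by
    have := @Nat.cast_div_le ℝ _ _ _ (m + k) q
    push_cast at this; exact this
  have u2 : ((m / q : ℕ) : ℝ) ≤ (m : ℝ) / q := Nat.cast_div_le
  have l1 : ((m : ℝ) + k) / q - 1 ≤ (((m + k) / q : ℕ) : ℝ) := by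
    have h1 : m + k < q * ((m + k) / q + 1) := Nat.lt_mul_div_succ _ hq
    have h2 : ((m : ℝ) + k) < q * ((((m + k) / q : ℕ) : ℝ) + 1) := by exact_mod_cast h1
    have h3 : ((m : ℝ) + k) / q < (((m + k) / q : ℕ) : ℝ) + 1 := by rw [div_lt_iff₀ hqR]; linarith
    linarith
  have l2 : (m : ℝ) / q - 1 ≤ ((m / q : ℕ) : ℝ) := by
    have h1 : m < q * (m / q + 1) := Nat.lt_mul_div_succ _ hq
    have h2 : (m : ℝ) < q * (((m / q : ℕ) : ℝ) + 1) := by exact_mod_cast h1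
    have h3 : (m : ℝ) / q < ((m / q : ℕ) : ℝ) + 1 := by rw [div_lt_iff₀ hqR]; linarith
    linarith
  rw [Finset.sum_const, nsmul_eq_mul, mul_one, mul_one, abs_le]
  rw [add_div] at u1 l1
  constructor <;> linarith

lemma good_sub {m k : ℕ} {L : Finset ℕ} {F F' : ℕ → ℝ} {W W' R R' : ℝ} (h : Good m k L F W R) (h' : Good m k L F' W' R') :
    Good m k L (fun n => F n - F' n) (W - W') (R + R') := by
  intro q hq hc
  have h1 := h q hq hc
  have h2 := h' q hq hc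
  rw [abs_le] at h1 h2 ⊢
  rw [Finset.sum_sub_distrib]
  constructor <;> nlinarith

lemma good_mul {m k : ℕ} {L : Finset ℕ} {F : ℕ → ℝ} {W R : ℝ} (h : Good m k L F W R) (P : Finset ℕ)
    (hP : ∀ p ∈ P, p.Prime) (hL : ∀ p ∈ L, p.Prime) (hLP : Disjoint L P) (𝒟 : Finset (Finset ℕ)) (h𝒟 : ∀ D ∈ 𝒟, D ⊆ P)
    (c : Finset ℕ → ℝ) (K : ℝ) (hK : ∑ D ∈ 𝒟, |c D| ≤ K) (hR : 0 ≤ R) :
    Good m k (L ∪ P) (fun n => F n * ∑ D ∈ 𝒟, c D * (if ∏ p ∈ D, p ∣ n then 1 else 0))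
      (W * ∑ D ∈ 𝒟, c D * (1 / (∏ p ∈ D, (p : ℝ)))) (R * K) := by
  intro q hq hc
  have hDq : ∀ D ∈ 𝒟, Nat.Coprime q (∏ p ∈ D, p) := by
    intro D hD
    apply Nat.Coprime.prod_right
    intro p hp
    exact hc p (Finset.mem_union_right _ (h𝒟 D hD hp))
  have hDpos : ∀ D ∈ 𝒟, 0 < ∏ p ∈ D, p := by
    intro D hD
    exact Finset.prod_pos fun p hp => (hP p (h𝒟 D hD hp)).pos
  have e1 : ∑ n ∈ (Ioc m (m + k)).filter (q ∣ ·), F n * ∑ D ∈ 𝒟, c D * (if ∏ p ∈ D, p ∣ n then 1 else 0) =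
      ∑ D ∈ 𝒟, c D * ∑ n ∈ (Ioc m (m + k)).filter ((q * ∏ p ∈ D, p) ∣ ·), F n := by
    simp only [Finset.mul_sum]
    rw [Finset.sum_comm]
    refine Finset.sum_congr rfl fun D hD => ?_
    have hset : (Ioc m (m + k)).filter ((q * ∏ p ∈ D, p) ∣ ·) = ((Ioc m (m + k)).filter (q ∣ ·)).filter ((∏ p ∈ D, p) ∣ ·) := by
      ext n
      simp only [Finset.mem_filter]
      constructor
      · rintro ⟨h1, h2⟩
        exact ⟨⟨h1, (dvd_mul_right _ _).trans h2⟩, (dvd_mul_left _ _).trans h2⟩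
      · rintro ⟨⟨h1, h2⟩, h3⟩
        exact ⟨h1, Nat.Coprime.mul_dvd_of_dvd_of_dvd (hDq D hD) h2 h3⟩
    rw [hset, Finset.sum_filter (s := (Ioc m (m + k)).filter (q ∣ ·))]
    refine Finset.sum_congr rfl fun n _ => ?_
    split_ifs <;> ring
  have e2 : (k : ℝ) / q * (W * ∑ D ∈ 𝒟, c D * (1 / (∏ p ∈ D, (p : ℝ)))) = ∑ D ∈ 𝒟, c D * ((k : ℝ) / ((q * ∏ p ∈ D, p : ℕ) : ℝ) * W) := by
    rw [Finset.mul_sum, Finset.mul_sum]
    refine Finset.sum_congr rfl fun D hD => ?_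
    push_cast
    rw [← div_div]
    ring
  rw [e1, e2, ← Finset.sum_sub_distrib]
  refine (Finset.abs_sum_le_sum_abs _ _).trans ?_
  calc ∑ D ∈ 𝒟, |c D * ∑ n ∈ (Ioc m (m + k)).filter ((q * ∏ p ∈ D, p) ∣ ·), F n - c D * ((k : ℝ) / ((q * ∏ p ∈ D, p : ℕ) : ℝ) * W)|
      ≤ ∑ D ∈ 𝒟, |c D| * R := by
        refine Finset.sum_le_sum fun D hD => ?_
        rw [← mul_sub, abs_mul]
        apply mul_le_mul_of_nonneg_left _ (abs_nonneg _)
        apply h (q * ∏ p ∈ D, p) (Nat.mul_pos hq (hDpos D hD))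
        intro p hp
        apply Nat.Coprime.mul_left (hc p (Finset.mem_union_left _ hp))
        apply Nat.Coprime.prod_left
        intro p' hp'
        rw [Nat.coprime_primes (hP p' (h𝒟 D hD hp')) (hL p hp)]
        rintro rfl
        exact Finset.disjoint_left.1 hLP hp (h𝒟 D hD hp')
    _ = R * ∑ D ∈ 𝒟, |c D| := by rw [← Finset.sum_mul, mul_comm]
    _ ≤ R * K := mul_le_mul_of_nonneg_left hK hR

end Pool.Agent.H3.Sv
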