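import Pool.Agent.H3.Sv.Levels

set_option autoImplicit false

namespace Pool.Agent.H3.Sv

open Finset Pool.Agent.H3.MLP

def Rn (M n : ℕ) : ℝ := 4 ^ (2 ^ n * (27 + 2 * (M - n)))

lemma Rn_pos (M n : ℕ) : 0 < Rn M n := by unfold Rn; positivity

lemma Rn_step (M n : ℕ) (h : n < M) (a : ℕ) (ha : a ≤ 4 ^ 2 ^ n) :
    Rn M n * (a : ℝ) ^ (2 * (12 + (M - 1 - n)) + 1) ≤ Rn M (n + 1) := by
  unfold Rn
  have h1 : (a : ℝ) ≤ 4 ^ 2 ^ n := by exact_mod_cast ha
  calc (4 : ℝ) ^ (2 ^ n * (27 + 2 * (M - n))) * (a : ℝ) ^ (2 * (12 + (M - 1 - n)) + 1)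
      ≤ 4 ^ (2 ^ n * (27 + 2 * (M - n))) * (4 ^ 2 ^ n) ^ (2 * (12 + (M - 1 - n)) + 1) := by
        apply mul_le_mul_of_nonneg_left _ (by positivity)
        exact pow_le_pow_left₀ (by positivity) h1 _
    _ = 4 ^ (2 ^ n * (27 + 2 * (M - n)) + 2 ^ n * (2 * (12 + (M - 1 - n)) + 1)) := by
        rw [← pow_mul, ← pow_add]
    _ = 4 ^ (2 ^ (n + 1) * (27 + 2 * (M - (n + 1)))) := by
        congr 1
        obtain ⟨d, rfl⟩ : ∃ d, M = n + 1 + d := ⟨M - (n + 1), by omega⟩
        have e1 : n + 1 + d - n = d + 1 := by omega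
        have e2 : n + 1 + d - 1 - n = d := by omega
        have e3 : n + 1 + d - (n + 1) = d := by omega
        rw [e1, e2, e3, pow_succ]
        ring
    _ ≤ _ := le_refl _

lemma SS_union (P Q : Finset ℕ) (x : ℕ) : SS (P ∪ Q) x = SS P x * SS Q x := by
  unfold SS
  by_cases h1 : ∃ p ∈ P, p ∣ x
  · rw [if_pos h1, if_pos, zero_mul]
    obtain ⟨p, hp, hd⟩ := h1
    exact ⟨p, Finset.mem_union_left _ hp, hd⟩
  · rw [if_neg h1, one_mul]
    by_cases h2 : ∃ p ∈ Q, p ∣ x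
    · rw [if_pos h2, if_pos]
      obtain ⟨p, hp, hd⟩ := h2
      exact ⟨p, Finset.mem_union_right _ hp, hd⟩
    · rw [if_neg h2, if_neg]
      rintro ⟨p, hp, hd⟩
      rcases Finset.mem_union.1 hp with h | h
      · exact h1 ⟨p, h, hd⟩
      · exact h2 ⟨p, h, hd⟩

lemma main_induct (m k : ℕ) (Q : Finset ℕ) (hQ : ∀ p ∈ Q, p.Prime) (M : ℕ) : ∀ n ≤ M,
    ∃ (A B : ℕ → ℝ) (WA WB : ℝ), Good m k (Lt Q n) A WA (Rn M n) ∧ Good m k (Lt Q n) B WB ((n + 1) * Rn M n) ∧
      (∀ x, SS (Lt Q n) x ≤ A x) ∧ (∀ x, B x ≤ SS (Lt Q n) x) ∧ Real.exp (-8 * n) ≤ WA ∧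
      WA * (1 - (1 / 4) / 2 ^ (M - n)) ≤ WB := by
  intro n
  induction n with
  | zero =>
    intro _
    have hL : Lt Q 0 = ∅ := by
      unfold Lt
      rw [Finset.filter_eq_empty_iff]
      intro p _; omega
    rw [hL]
    have hR : (1 : ℝ) ≤ Rn M 0 := by unfold Rn; exact one_le_pow₀ (by norm_num)
    refine ⟨fun _ => 1, fun _ => 1, 1, 1, good_mono (good_one m k) hR, good_mono (good_one m k) (by simpa using hR), ?_, ?_, ?_, ?_⟩
    · intro x; unfold SS; split_ifs <;> norm_num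
    · intro x; unfold SS; simp
    · simp
    · have : (0 : ℝ) ≤ (1 / 4) / 2 ^ (M - 0) := by positivity
      linarith
  | succ n ih =>
    intro hn
    obtain ⟨A, B, WA, WB, gA, gB, hA, hB, hWA, hWB⟩ := ih (by omega)
    set P := Lv Q n with hPdef
    have hP : ∀ p ∈ P, p.Prime := fun p hp => hQ p (Finset.mem_filter.1 hp).1
    have hL : ∀ p ∈ Lt Q n, p.Prime := fun p hp => hQ p (Finset.mem_filter.1 hp).1
    have hd : Disjoint (Lt Q n) P := Lt_disj Q n
    have hS : ∑ p ∈ P, (1 / (p : ℝ)) ≤ 4 := sum_Lv Q hQ n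
    have hc : P.card + 1 ≤ 4 ^ 2 ^ n := card_Lv Q hQ n
    set u := M - 1 - n with hu
    set t := 2 * (12 + u) with ht
    have hRp := Rn_pos M n
    have step := Rn_step M n (by omega) (P.card + 1) hc
    rw [← hu, ← ht] at step
    have hcard1 : (1 : ℝ) ≤ ((P.card + 1 : ℕ) : ℝ) := by push_cast; linarith [Nat.cast_nonneg (α := ℝ) P.card]
    have hpow : ((P.card + 1 : ℕ) : ℝ) ^ t ≤ ((P.card + 1 : ℕ) : ℝ) ^ (t + 1) := pow_le_pow_right₀ hcard1 (by omega)
    have hpow0 : (0 : ℝ) ≤ ((P.card + 1 : ℕ) : ℝ) ^ t := by positivity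
    have hWA0 : 0 < WA := lt_of_lt_of_le (Real.exp_pos _) hWA
    have hT8 : Real.exp (-8) ≤ alt t P := alt_even_ge P hP (12 + u) hS
    have hT0 : 0 < alt t P := lt_of_lt_of_le (Real.exp_pos _) hT8
    have hr : es (t + 1) P ≤ (1 / 8) / 2 ^ u * alt t P := es_ratio P hP u hS
    rw [Lt_succ]
    refine ⟨fun x => A x * TT t P x, fun x => B x * TT t P x - A x * EE (t + 1) P x, WA * alt t P, WB * alt t P - WA * es (t + 1) P, ?_, ?_, ?_, ?_, ?_, ?_⟩
    · apply good_mono (good_T gA P hP hL hd t hRp.le)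
      exact (mul_le_mul_of_nonneg_left hpow hRp.le).trans step
    · have g1 := good_T gB P hP hL hd t (by positivity)
      have g2 := good_E gA P hP hL hd (t + 1) hRp.le
      apply good_mono (good_sub g1 g2)
      have e1 : (n + 1) * Rn M n * ((P.card + 1 : ℕ) : ℝ) ^ t ≤ (n + 1) * Rn M (n + 1) := by
        rw [mul_assoc]
        apply mul_le_mul_of_nonneg_left _ (by positivity)
        exact (mul_le_mul_of_nonneg_left hpow hRp.le).trans step
      push_cast at e1 step ⊢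
      linarith
    · intro x
      rw [SS_union]
      exact mul_le_mul (hA x) (SS_le_TT P hP x (12 + u)) (SS_nonneg _ _) ((SS_nonneg _ _).trans (hA x))
    · intro x
      rw [SS_union]
      have h1 := SS_le_TT P hP x (12 + u)
      have h2 := TT_sub_EE P hP x (12 + u)
      rw [← ht] at h1 h2
      have h3 := EE_nonneg P x (t + 1)
      have h4 : 0 ≤ TT t P x := (SS_nonneg _ _).trans h1
      calc B x * TT t P x - A x * EE (t + 1) P x ≤ SS (Lt Q n) x * TT t P x - SS (Lt Q n) x * EE (t + 1) P x := by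
            have := mul_le_mul_of_nonneg_right (hB x) h4
            have := mul_le_mul_of_nonneg_right (hA x) h3
            linarith
        _ = SS (Lt Q n) x * (TT t P x - EE (t + 1) P x) := by ring
        _ ≤ SS (Lt Q n) x * SS P x := mul_le_mul_of_nonneg_left h2 (SS_nonneg _ _)
    · have : Real.exp (-8 * ((n + 1 : ℕ) : ℝ)) = Real.exp (-8 * n) * Real.exp (-8) := by
        rw [← Real.exp_add]; congr 1; push_cast; ring
      rw [this]
      exact mul_le_mul hWA hT8 (Real.exp_pos _).le hWA0.le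
    · have h1 := mul_le_mul_of_nonneg_right hWB hT0.le
      have h2 := mul_le_mul_of_nonneg_left hr hWA0.le
      have e1 : M - n = u + 1 := by omega
      have e2 : M - (n + 1) = u := by omega
      rw [e1] at h1
      rw [e2]
      have e3 : WA * (1 - 1 / 4 / 2 ^ (u + 1)) * alt t P - WA * (1 / 8 / 2 ^ u * alt t P) = WA * alt t P * (1 - 1 / 4 / 2 ^ u) := by
        rw [pow_succ]
        field_simp
        ring
      linarith

end Pool.Agent.H3.Sv
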