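import Pool.Agent.H3.Sv.Point
import Pool.Agent.H3.MLP.Core1

set_option autoImplicit false

namespace Pool.Agent.H3.Sv

open Finset Pool.Agent.H3.MLP

def lev (p : ℕ) : ℕ := Nat.size (Nat.log 4 p)

def Lv (Q : Finset ℕ) (l : ℕ) : Finset ℕ := Q.filter (fun p => lev p = l)
def Lt (Q : Finset ℕ) (n : ℕ) : Finset ℕ := Q.filter (fun p => lev p < n)

lemma Lt_succ (Q : Finset ℕ) (n : ℕ) : Lt Q (n + 1) = Lt Q n ∪ Lv Q n := by
  ext p
  simp only [Lt, Lv, Finset.mem_filter, Finset.mem_union]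
  constructor
  · rintro ⟨h1, h2⟩
    rcases Nat.lt_or_ge (lev p) n with h | h
    · left; exact ⟨h1, h⟩
    · right; exact ⟨h1, by omega⟩
  · rintro (⟨h1, h2⟩ | ⟨h1, h2⟩)
    · exact ⟨h1, by omega⟩
    · exact ⟨h1, by omega⟩

lemma Lt_disj (Q : Finset ℕ) (n : ℕ) : Disjoint (Lt Q n) (Lv Q n) := by
  rw [Finset.disjoint_left]
  intro p h1 h2
  simp only [Lt, Lv, Finset.mem_filter] at h1 h2
  omega

lemma lt_of_lev_le {p l : ℕ} (h : lev p ≤ l) : p < 4 ^ 2 ^ l := by
  unfold lev at h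
  rw [Nat.size_le] at h
  exact Nat.lt_pow_of_log_lt (by norm_num) h

lemma le_of_lt_lev {p l : ℕ} (hp : p ≠ 0) (h : l < lev p) : 4 ^ 2 ^ l ≤ p := by
  unfold lev at h
  rw [Nat.lt_size] at h
  exact Nat.pow_le_of_le_log hp h

lemma card_Lv (Q : Finset ℕ) (hP : ∀ p ∈ Q, p.Prime) (l : ℕ) : (Lv Q l).card + 1 ≤ 4 ^ 2 ^ l := by
  have h1 : Lv Q l ⊆ (range (4 ^ 2 ^ l)).erase 0 := by
    intro p hp
    simp only [Lv, Finset.mem_filter] at hp
    rw [Finset.mem_erase, Finset.mem_range]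
    exact ⟨(hP p hp.1).ne_zero, lt_of_lev_le hp.2.le⟩
  have h2 := Finset.card_le_card h1
  rw [Finset.card_erase_of_mem (by rw [Finset.mem_range]; positivity), Finset.card_range] at h2
  have h3 : 0 < 4 ^ 2 ^ l := by positivity
  omega

lemma sum_Lv (Q : Finset ℕ) (hP : ∀ p ∈ Q, p.Prime) (l : ℕ) : ∑ p ∈ Lv Q l, (1 / (p : ℝ)) ≤ 4 := by
  rcases l with _ | l
  · have h1 : Lv Q 0 ⊆ {2, 3} := by
      intro p hp
      simp only [Lv, Finset.mem_filter] at hp
      have h1 := lt_of_lev_le hp.2.le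
      have h2 := (hP p hp.1).two_le
      norm_num at h1
      rw [Finset.mem_insert, Finset.mem_singleton]
      omega
    calc ∑ p ∈ Lv Q 0, (1 / (p : ℝ)) ≤ ∑ p ∈ ({2, 3} : Finset ℕ), (1 / (p : ℝ)) := by
          apply Finset.sum_le_sum_of_subset_of_nonneg h1
          intro p _ _; positivity
      _ ≤ 4 := by
          rw [Finset.sum_pair (by norm_num)]; norm_num
  · have h1 : Lv Q (l + 1) ⊆ (Ico (2 ^ l) (2 ^ (l + 1))).biUnion Pb := by
      intro p hp
      simp only [Lv, Finset.mem_filter] at hp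
      have hpp := hP p hp.1
      rw [Finset.mem_biUnion]
      refine ⟨Nat.log 4 p, ?_, ?_⟩
      · rw [Finset.mem_Ico]
        have h2 := hp.2
        unfold lev at h2
        constructor
        · rw [← Nat.lt_size]; omega
        · rw [← Nat.size_le]; omega
      · rw [mem_Pb]
        exact ⟨⟨Nat.pow_log_le_self 4 hpp.ne_zero, Nat.lt_pow_succ_log_self (by norm_num) p⟩, hpp⟩
    calc ∑ p ∈ Lv Q (l + 1), (1 / (p : ℝ)) ≤ ∑ p ∈ (Ico (2 ^ l) (2 ^ (l + 1))).biUnion Pb, (1 / (p : ℝ)) := by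
          apply Finset.sum_le_sum_of_subset_of_nonneg h1
          intro p _ _; positivity
      _ ≤ ∑ j ∈ Ico (2 ^ l) (2 ^ (l + 1)), ∑ p ∈ Pb j, (1 / (p : ℝ)) := by
          rw [Finset.sum_biUnion]
          intro i _ j _ hij
          rw [Function.onFun, Finset.disjoint_left]
          intro p hp hp'
          exact hij ((log_of_mem_Pb hp).symm.trans (log_of_mem_Pb hp'))
      _ ≤ ∑ j ∈ Ico (2 ^ l) (2 ^ (l + 1)), (4 / (2 : ℝ) ^ l) := by
          apply Finset.sum_le_sum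
          intro j hj
          rw [Finset.mem_Ico] at hj
          have hj1 : 1 ≤ j := le_trans Nat.one_le_two_pow hj.1
          refine (inv_sum_le j hj1).trans ?_
          apply div_le_div_of_nonneg_left (by norm_num) (by positivity)
          exact_mod_cast hj.1
      _ = 4 := by
          rw [Finset.sum_const, Nat.card_Ico, nsmul_eq_mul]
          have : 2 ^ (l + 1) - 2 ^ l = 2 ^ l := by rw [pow_succ]; omega
          rw [this]
          push_cast
          field_simp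

end Pool.Agent.H3.Sv
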