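import Pool.Agent.H3.Sv.Weights

set_option autoImplicit false

namespace Pool.Agent.H3.Sv

open Finset

noncomputable def TT (h : ℕ) (P : Finset ℕ) (n : ℕ) : ℝ :=
  ∑ D ∈ P.powerset.filter (fun D => D.card ≤ h), (-1 : ℝ) ^ D.card * (if ∏ p ∈ D, p ∣ n then 1 else 0)

noncomputable def EE (h : ℕ) (P : Finset ℕ) (n : ℕ) : ℝ :=
  ∑ D ∈ P.powersetCard h, (1 : ℝ) * (if ∏ p ∈ D, p ∣ n then 1 else 0)

noncomputable def SS (P : Finset ℕ) (n : ℕ) : ℝ := if (∃ p ∈ P, p ∣ n) then 0 else 1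

lemma fiber (P : Finset ℕ) (h : ℕ) (f : Finset ℕ → ℝ) :
    ∑ D ∈ P.powerset.filter (fun D => D.card ≤ h), f D = ∑ j ∈ range (h + 1), ∑ D ∈ P.powersetCard j, f D := by
  rw [← Finset.sum_fiberwise_of_maps_to (s := P.powerset.filter (fun D => D.card ≤ h)) (t := range (h + 1)) (g := Finset.card)]
  · refine Finset.sum_congr rfl fun j hj => ?_
    apply Finset.sum_congr _ (fun _ _ => rfl)
    ext D
    rw [Finset.mem_range] at hj
    simp only [Finset.mem_filter, Finset.mem_powerset, Finset.mem_powersetCard]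
    constructor
    · rintro ⟨⟨h1, _⟩, h2⟩; exact ⟨h1, h2⟩
    · rintro ⟨h1, h2⟩; exact ⟨⟨h1, by omega⟩, h2⟩
  · intro D hD
    rw [Finset.mem_filter] at hD
    rw [Finset.mem_range]; omega

lemma dvd_iff (P : Finset ℕ) (hP : ∀ p ∈ P, p.Prime) (n : ℕ) (D : Finset ℕ) (hD : D ⊆ P) :
    ∏ p ∈ D, p ∣ n ↔ D ⊆ P.filter (· ∣ n) := by
  constructor
  · intro h p hp
    rw [Finset.mem_filter]
    exact ⟨hD hp, (Finset.dvd_prod_of_mem _ hp).trans h⟩
  · intro h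
    apply Finset.prod_primes_dvd
    · intro p hp; exact (hP p (hD hp)).prime
    · intro p hp; exact (Finset.mem_filter.1 (h hp)).2

lemma count_eq (P : Finset ℕ) (hP : ∀ p ∈ P, p.Prime) (n j : ℕ) :
    ∑ D ∈ P.powersetCard j, (if ∏ p ∈ D, p ∣ n then (1 : ℝ) else 0) = ((P.filter (· ∣ n)).card.choose j : ℝ) := by
  rw [← Finset.sum_filter, Finset.sum_const, nsmul_eq_mul, mul_one]
  rw [← Finset.card_powersetCard]
  congr 2
  ext D
  simp only [Finset.mem_filter, Finset.mem_powersetCard]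
  constructor
  · rintro ⟨⟨h1, h2⟩, h3⟩
    exact ⟨(dvd_iff P hP n D h1).1 h3, h2⟩
  · rintro ⟨h1, h2⟩
    have h3 : D ⊆ P := h1.trans (Finset.filter_subset _ _)
    exact ⟨⟨h3, h2⟩, (dvd_iff P hP n D h3).2 h1⟩

lemma TT_eq (P : Finset ℕ) (hP : ∀ p ∈ P, p.Prime) (n h : ℕ) :
    TT h P n = ∑ j ∈ range (h + 1), (-1 : ℝ) ^ j * ((P.filter (· ∣ n)).card.choose j : ℝ) := by
  unfold TT
  rw [fiber]
  refine Finset.sum_congr rfl fun j _ => ?_
  rw [← count_eq P hP n j, Finset.mul_sum]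
  refine Finset.sum_congr rfl fun D hD => ?_
  rw [Finset.mem_powersetCard] at hD
  rw [hD.2]

lemma EE_eq (P : Finset ℕ) (hP : ∀ p ∈ P, p.Prime) (n h : ℕ) :
    EE h P n = ((P.filter (· ∣ n)).card.choose h : ℝ) := by
  unfold EE
  rw [← count_eq P hP n h]
  refine Finset.sum_congr rfl fun D _ => ?_
  rw [one_mul]

lemma TT_weight (P : Finset ℕ) (h : ℕ) :
    ∑ D ∈ P.powerset.filter (fun D => D.card ≤ h), (-1 : ℝ) ^ D.card * (1 / (∏ p ∈ D, (p : ℝ))) = alt h P := by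
  rw [fiber]
  unfold alt es
  refine Finset.sum_congr rfl fun j _ => ?_
  rw [Finset.mul_sum]
  refine Finset.sum_congr rfl fun D hD => ?_
  rw [Finset.mem_powersetCard] at hD
  rw [hD.2]

lemma EE_weight (P : Finset ℕ) (h : ℕ) :
    ∑ D ∈ P.powersetCard h, (1 : ℝ) * (1 / (∏ p ∈ D, (p : ℝ))) = es h P := by
  unfold es
  refine Finset.sum_congr rfl fun D _ => ?_
  rw [one_mul]

lemma SS_of_card (P : Finset ℕ) (n : ℕ) : SS P n = if (P.filter (· ∣ n)).card = 0 then 1 else 0 := by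
  unfold SS
  by_cases h : ∃ p ∈ P, p ∣ n
  · rw [if_pos h, if_neg]
    intro h'
    rw [Finset.card_eq_zero, Finset.filter_eq_empty_iff] at h'
    obtain ⟨p, hp, hd⟩ := h
    exact h' hp hd
  · rw [if_neg h, if_pos]
    rw [Finset.card_eq_zero, Finset.filter_eq_empty_iff]
    intro p hp hd
    exact h ⟨p, hp, hd⟩

lemma alt_choose (a t : ℕ) : ∑ j ∈ range (2 * t + 1), (-1 : ℝ) ^ j * ((a + 1).choose j : ℝ) = (a.choose (2 * t) : ℝ) := by
  have h := @Int.alternating_sum_range_choose_eq_choose a (2 * t)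
  rw [pow_mul, neg_one_sq, one_pow, one_mul] at h
  exact_mod_cast h

lemma SS_le_TT (P : Finset ℕ) (hP : ∀ p ∈ P, p.Prime) (n t : ℕ) : SS P n ≤ TT (2 * t) P n := by
  rw [SS_of_card, TT_eq P hP]
  rcases h : (P.filter (· ∣ n)).card with _ | a
  · rw [if_pos rfl]
    rw [Finset.sum_range_succ']
    simp
  · rw [if_neg (by omega), alt_choose]
    positivity

lemma TT_sub_EE (P : Finset ℕ) (hP : ∀ p ∈ P, p.Prime) (n t : ℕ) : TT (2 * t) P n - EE (2 * t + 1) P n ≤ SS P n := by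
  rw [SS_of_card, TT_eq P hP, EE_eq P hP]
  rcases h : (P.filter (· ∣ n)).card with _ | a
  · rw [if_pos rfl]
    rw [Finset.sum_range_succ']
    simp
  · rw [if_neg (by omega), alt_choose, Nat.choose_succ_succ a (2 * t)]
    push_cast
    have : (0 : ℝ) ≤ (a.choose (2 * t + 1) : ℝ) := by positivity
    have h2 : (a.choose (2 * t).succ : ℝ) = (a.choose (2 * t + 1) : ℝ) := rfl
    linarith

lemma EE_nonneg (P : Finset ℕ) (n h : ℕ) : 0 ≤ EE h P n := by
  unfold EE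
  apply Finset.sum_nonneg
  intro D _
  split_ifs <;> norm_num

lemma SS_nonneg (P : Finset ℕ) (n : ℕ) : 0 ≤ SS P n := by
  unfold SS; split_ifs <;> norm_num

lemma sum_choose_le (a h : ℕ) : ∑ j ∈ range (h + 1), a.choose j ≤ (a + 1) ^ h := by
  rw [add_pow]
  apply Finset.sum_le_sum
  intro j hj
  rw [Finset.mem_range] at hj
  rw [one_pow, mul_one]
  have h1 : 1 ≤ h.choose j := Nat.choose_pos (by omega)
  calc a.choose j ≤ a ^ j := Nat.choose_le_pow _ _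
    _ = a ^ j * 1 := (mul_one _).symm
    _ ≤ a ^ j * h.choose j := Nat.mul_le_mul_left _ h1

lemma TT_norm (P : Finset ℕ) (h : ℕ) :
    ∑ D ∈ P.powerset.filter (fun D => D.card ≤ h), |(-1 : ℝ) ^ D.card| ≤ ((P.card + 1 : ℕ) : ℝ) ^ h := by
  have h1 : ∀ D ∈ P.powerset.filter (fun D => D.card ≤ h), |(-1 : ℝ) ^ D.card| = 1 := by
    intro D _; simp
  rw [Finset.sum_congr rfl h1, fiber]
  have h2 : ∀ j ∈ range (h + 1), ∑ D ∈ P.powersetCard j, (1 : ℝ) = ((P.card.choose j : ℕ) : ℝ) := by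
    intro j _
    rw [Finset.sum_const, Finset.card_powersetCard, nsmul_eq_mul, mul_one]
  rw [Finset.sum_congr rfl h2]
  exact_mod_cast sum_choose_le P.card h

lemma EE_norm (P : Finset ℕ) (h : ℕ) :
    ∑ D ∈ P.powersetCard h, |(1 : ℝ)| ≤ ((P.card + 1 : ℕ) : ℝ) ^ h := by
  rw [abs_one, Finset.sum_const, Finset.card_powersetCard, nsmul_eq_mul, mul_one]
  have h1 : P.card.choose h ≤ (P.card + 1) ^ h :=
    (Nat.choose_le_pow _ _).trans (Nat.pow_le_pow_left (by omega) _)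
  exact_mod_cast h1

lemma good_mono {m k : ℕ} {L : Finset ℕ} {F : ℕ → ℝ} {W R R' : ℝ} (h : Good m k L F W R) (hR : R ≤ R') : Good m k L F W R' :=
  fun q hq hc => (h q hq hc).trans hR

/-- one sieve step -/
lemma good_T {m k : ℕ} {L : Finset ℕ} {F : ℕ → ℝ} {W R : ℝ} (h : Good m k L F W R) (P : Finset ℕ)
    (hP : ∀ p ∈ P, p.Prime) (hL : ∀ p ∈ L, p.Prime) (hLP : Disjoint L P) (t : ℕ) (hR : 0 ≤ R) :
    Good m k (L ∪ P) (fun n => F n * TT t P n) (W * alt t P) (R * ((P.card + 1 : ℕ) : ℝ) ^ t) := by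
  rw [← TT_weight]
  exact good_mul h P hP hL hLP _ (fun D hD => Finset.mem_powerset.1 (Finset.mem_filter.1 hD).1) _ _ (TT_norm P t) hR

lemma good_E {m k : ℕ} {L : Finset ℕ} {F : ℕ → ℝ} {W R : ℝ} (h : Good m k L F W R) (P : Finset ℕ)
    (hP : ∀ p ∈ P, p.Prime) (hL : ∀ p ∈ L, p.Prime) (hLP : Disjoint L P) (t : ℕ) (hR : 0 ≤ R) :
    Good m k (L ∪ P) (fun n => F n * EE t P n) (W * es t P) (R * ((P.card + 1 : ℕ) : ℝ) ^ t) := by
  rw [← EE_weight]
  exact good_mul h P hP hL hLP (P.powersetCard t) (fun D hD => (Finset.mem_powersetCard.1 hD).1) (fun _ => (1 : ℝ)) _ (EE_norm P t) hR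

end Pool.Agent.H3.Sv
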