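import Pool.Agent.H3.Sv.Induct

set_option autoImplicit false

namespace Pool.Agent.H3.Sv

open Finset Pool.Agent.H3.MLP

lemma numI (I : ℕ) (hI : 7 ≤ I) : 13 * (I + 1) + 4 ≤ 2 ^ I := by
  induction I, hI using Nat.le_induction with
  | base => norm_num
  | succ n hn ih => rw [pow_succ]; omega

theorem sieve (I : ℕ) (hI : 7 ≤ I) (Q : Finset ℕ) (hQ : ∀ p ∈ Q, p.Prime) (hcard : Q.card ≤ 2 ^ 2 ^ I) (m k : ℕ)
    (hk : 2 ^ (110 * 2 ^ I) ≤ k) : ∃ x ∈ Ioc m (m + k), ∀ p ∈ Q, ¬ p ∣ x := by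
  by_contra hcon
  push Not at hcon
  obtain ⟨A, B, WA, WB, gA, gB, hA, hB, hWA, hWB⟩ := main_induct m k Q hQ (I + 1) (I + 1) le_rfl
  set y : ℝ := 2 ^ 2 ^ I with hy
  have hy0 : 0 < y := by positivity
  have h1 := gB 1 one_pos (fun p _ => Nat.coprime_one_left p)
  have hf : (Ioc m (m + k)).filter (1 ∣ ·) = Ioc m (m + k) := by
    rw [Finset.filter_true_of_mem]; intro x _; exact one_dvd x
  rw [hf, abs_le] at h1
  have hR : Rn (I + 1) (I + 1) = y ^ 108 := by
    unfold Rn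
    rw [hy, ← pow_mul, Nat.sub_self]
    rw [show (4 : ℝ) = 2 ^ 2 by norm_num, ← pow_mul]
    congr 1
    rw [pow_succ]; ring
  rw [hR] at h1
  -- upper bound
  have h2 : ∀ x ∈ Ioc m (m + k), B x ≤ ∑ p ∈ Q.filter (fun p => ¬ lev p < I + 1), (if p ∣ x then (1 : ℝ) else 0) := by
    intro x hx
    refine (hB x).trans ?_
    have hnn : ∀ p ∈ Q.filter (fun p => ¬ lev p < I + 1), (0 : ℝ) ≤ (if p ∣ x then (1 : ℝ) else 0) := by
      intro p _; split_ifs <;> norm_num
    unfold SS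
    split_ifs with hs
    · exact Finset.sum_nonneg hnn
    · obtain ⟨p, hp, hd⟩ := hcon x hx
      have hp' : p ∈ Q.filter (fun p => ¬ lev p < I + 1) := by
        rw [Finset.mem_filter]
        refine ⟨hp, fun h => hs ⟨p, ?_, hd⟩⟩
        unfold Lt
        rw [Finset.mem_filter]; exact ⟨hp, h⟩
      refine le_trans ?_ (Finset.single_le_sum hnn hp')
      rw [if_pos hd]
  have h3 : ∑ x ∈ Ioc m (m + k), B x ≤ (Q.card : ℝ) * ((k : ℝ) / y ^ 2 + 1) := by
    refine (Finset.sum_le_sum h2).trans ?_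
    rw [Finset.sum_comm]
    calc ∑ p ∈ Q.filter (fun p => ¬ lev p < I + 1), ∑ x ∈ Ioc m (m + k), (if p ∣ x then (1 : ℝ) else 0)
        ≤ ∑ p ∈ Q.filter (fun p => ¬ lev p < I + 1), ((k : ℝ) / y ^ 2 + 1) := by
          apply Finset.sum_le_sum
          intro p hp
          rw [Finset.mem_filter] at hp
          have hpp := hQ p hp.1
          have g := good_one m k p hpp.pos (by simp)
          rw [abs_le] at g
          rw [← Finset.sum_filter]
          have hpy : y ^ 2 ≤ (p : ℝ) := by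
            have h4 := le_of_lt_lev (l := I) hpp.ne_zero (by omega)
            have h5 : ((4 ^ 2 ^ I : ℕ) : ℝ) ≤ p := by exact_mod_cast h4
            refine le_trans (le_of_eq ?_) h5
            push_cast
            rw [hy, ← pow_mul, mul_comm, pow_mul]; norm_num
          have h6 : (k : ℝ) / p ≤ k / y ^ 2 := by
            apply div_le_div_of_nonneg_left (by positivity) (by positivity) hpy
          have h7 := g.2
          rw [mul_one] at h7
          linarith
      _ = ((Q.filter (fun p => ¬ lev p < I + 1)).card : ℝ) * ((k : ℝ) / y ^ 2 + 1) := by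
          rw [Finset.sum_const, nsmul_eq_mul]
      _ ≤ (Q.card : ℝ) * ((k : ℝ) / y ^ 2 + 1) := by
          apply mul_le_mul_of_nonneg_right _ (by positivity)
          exact_mod_cast Finset.card_filter_le _ _
  have hQy : (Q.card : ℝ) ≤ y := by
    rw [hy]; exact_mod_cast hcard
  have h4 : (Q.card : ℝ) * ((k : ℝ) / y ^ 2 + 1) ≤ y * ((k : ℝ) / y ^ 2 + 1) :=
    mul_le_mul_of_nonneg_right hQy (by positivity)
  have h5 : y * ((k : ℝ) / y ^ 2 + 1) = k / y + y := by field_simp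
  -- lower bound
  have hexp : 16 / y ≤ Real.exp (-8 * ((I + 1 : ℕ) : ℝ)) := by
    have e3 : Real.exp 1 ≤ 3 := by
      have := Real.exp_one_lt_d9; linarith
    have e4 : Real.exp (8 * ((I + 1 : ℕ) : ℝ)) ≤ 2 ^ (13 * (I + 1)) := by
      have : Real.exp (8 * ((I + 1 : ℕ) : ℝ)) = (Real.exp 1 ^ 8) ^ (I + 1) := by
        rw [← pow_mul, ← Real.exp_nat_mul]; congr 1; push_cast; ring
      rw [this, pow_mul (2 : ℝ)]
      apply pow_le_pow_left₀ (by positivity)
      calc Real.exp 1 ^ 8 ≤ 3 ^ 8 := pow_le_pow_left₀ (Real.exp_pos _).le e3 _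
        _ ≤ 2 ^ 13 := by norm_num
    have e5 : Real.exp (8 * ((I + 1 : ℕ) : ℝ)) * 16 ≤ y := by
      calc Real.exp (8 * ((I + 1 : ℕ) : ℝ)) * 16 ≤ 2 ^ (13 * (I + 1)) * 2 ^ 4 := by
            have : (16 : ℝ) = 2 ^ 4 := by norm_num
            rw [this]
            exact mul_le_mul_of_nonneg_right e4 (by positivity)
        _ = 2 ^ (13 * (I + 1) + 4) := by rw [← pow_add]
        _ ≤ 2 ^ 2 ^ I := pow_le_pow_right₀ (by norm_num) (numI I hI)
    have e6 : Real.exp (-8 * ((I + 1 : ℕ) : ℝ)) = 1 / Real.exp (8 * ((I + 1 : ℕ) : ℝ)) := by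
      rw [one_div, ← Real.exp_neg]; congr 1; ring
    rw [e6, div_le_div_iff₀ hy0 (Real.exp_pos _)]
    linarith
  have hWB' : 12 / y ≤ WB := by
    rw [Nat.sub_self, pow_zero] at hWB
    have := hexp.trans hWA
    have e : 12 / y = (16 / y) * (3 / 4) := by ring
    rw [e]; linarith
  have hkR : y ^ 110 ≤ (k : ℝ) := by
    have : ((2 ^ (110 * 2 ^ I) : ℕ) : ℝ) ≤ k := by exact_mod_cast hk
    refine le_trans (le_of_eq ?_) this
    push_cast
    rw [hy, ← pow_mul, mul_comm]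
  have hk0 : (0 : ℝ) ≤ k := by positivity
  have h6 : (k : ℝ) * (12 / y) ≤ k * WB := mul_le_mul_of_nonneg_left hWB' hk0
  have h7 := h1.1
  have hyI : ((I : ℝ) + 3) ≤ y := by
    have e1 : I + 3 ≤ 2 ^ 2 ^ I := by
      have := numI I hI
      have h2 : 2 ^ I < 2 ^ 2 ^ I := Nat.lt_two_pow_self
      omega
    rw [hy]; exact_mod_cast e1
  have h8 : y ≤ y ^ 108 := by
    have : (1 : ℝ) ≤ y := by rw [hy]; exact one_le_pow₀ (by norm_num)
    exact le_self_pow₀ this (by norm_num)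
  have h9 : y ^ 109 ≤ k / y := by
    rw [le_div_iff₀ hy0]
    calc y ^ 109 * y = y ^ 110 := by ring
      _ ≤ (k : ℝ) := hkR
  have h10 : (k : ℝ) * (12 / y) = 12 * (k / y) := by ring
  have h11 : (((I + 1 : ℕ) : ℝ) + 1) * y ^ 108 + y ≤ ((I : ℝ) + 3) * y ^ 108 := by
    push_cast
    linarith
  have h12 : ((I : ℝ) + 3) * y ^ 108 ≤ y * y ^ 108 := mul_le_mul_of_nonneg_right hyI (by positivity)
  have h13 : y * y ^ 108 = y ^ 109 := by ring
  have h14 : 0 < y ^ 109 := by positivity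
  rw [Nat.cast_one, div_one] at h7
  have h15 := h3.trans h4
  rw [h5] at h15
  linarith

end Pool.Agent.H3.Sv
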