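import Pool.Agent.H3.Sv.Basic

set_option autoImplicit false

namespace Pool.Agent.H3.Sv

open Finset

noncomputable def es (h : ℕ) (P : Finset ℕ) : ℝ := ∑ D ∈ P.powersetCard h, (1 / (∏ p ∈ D, (p : ℝ)))

lemma es_zero (P : Finset ℕ) : es 0 P = 1 := by simp [es]

lemma es_insert (h : ℕ) (P : Finset ℕ) (p : ℕ) (hp : p ∉ P) :
    es (h + 1) (insert p P) = es (h + 1) P + (1 / (p : ℝ)) * es h P := by
  unfold es
  rw [powersetCard_succ_insert hp, Finset.sum_union, Finset.sum_image, Finset.mul_sum]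
  · congr 1
    refine Finset.sum_congr rfl fun D hD => ?_
    rw [Finset.mem_powersetCard] at hD
    rw [Finset.prod_insert (fun h' => hp (hD.1 h')), one_div, one_div, one_div, mul_inv]
  · intro D hD D' hD' e
    simp only [Finset.mem_coe, Finset.mem_powersetCard] at hD hD'
    have h1 : (insert p D).erase p = D := Finset.erase_insert (fun h' => hp (hD.1 h'))
    have h2 : (insert p D').erase p = D' := Finset.erase_insert (fun h' => hp (hD'.1 h'))
    rw [← h1, ← h2]
    rw [e]
  · rw [Finset.disjoint_left]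
    intro D hD hD'
    rw [Finset.mem_powersetCard] at hD
    rw [Finset.mem_image] at hD'
    obtain ⟨D', _, rfl⟩ := hD'
    exact hp (hD.1 (Finset.mem_insert_self _ _))

noncomputable def alt (h : ℕ) (P : Finset ℕ) : ℝ := ∑ j ∈ range (h + 1), (-1) ^ j * es j P

lemma alt_insert (h : ℕ) (P : Finset ℕ) (p : ℕ) (hp : p ∉ P) :
    alt (h + 1) (insert p P) = alt (h + 1) P - (1 / (p : ℝ)) * alt h P := by
  unfold alt
  rw [Finset.sum_range_succ' _ (h + 1), Finset.sum_range_succ' _ (h + 1), es_zero, es_zero, Finset.mul_sum]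
  have : ∀ j ∈ range (h + 1), (-1 : ℝ) ^ (j + 1) * es (j + 1) (insert p P) =
      (-1) ^ (j + 1) * es (j + 1) P - 1 / (p : ℝ) * ((-1) ^ j * es j P) := by
    intro j _
    rw [es_insert _ _ _ hp]
    ring
  rw [Finset.sum_congr rfl this, Finset.sum_sub_distrib]
  ring

lemma alt_bonf (P : Finset ℕ) (hP : ∀ p ∈ P, p.Prime) : ∀ h : ℕ,
    0 ≤ (-1 : ℝ) ^ h * (alt h P - ∏ p ∈ P, (1 - 1 / (p : ℝ))) := by
  induction P using Finset.induction_on with
  | empty =>
    intro h
    have : alt h ∅ = 1 := by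
      unfold alt
      rw [Finset.sum_range_succ', es_zero]
      rw [Finset.sum_eq_zero]
      · simp
      · intro j _
        have : es (j + 1) ∅ = 0 := by
          unfold es
          rw [Finset.powersetCard_eq_empty.2 (by simp)]
          simp
        rw [this]; simp
    rw [this]; simp
  | insert p P hp ih =>
    have ih' := ih (fun q hq => hP q (Finset.mem_insert_of_mem hq))
    intro h
    rw [Finset.prod_insert hp]
    have hp2 : (2 : ℝ) ≤ p := by exact_mod_cast (hP p (Finset.mem_insert_self _ _)).two_le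
    cases h with
    | zero =>
      have e0 : alt 0 (insert p P) = 1 := by simp [alt, es_zero]
      rw [e0, pow_zero, one_mul, sub_nonneg]
      have hx0 : 0 ≤ 1 - 1 / (p : ℝ) := by
        rw [sub_nonneg, div_le_one (by linarith)]; linarith
      have hx1 : 1 - 1 / (p : ℝ) ≤ 1 := by
        have : 0 ≤ 1 / (p : ℝ) := by positivity
        linarith
      have h1 : ∏ p ∈ P, (1 - 1 / (p : ℝ)) ≤ 1 := by
        apply Finset.prod_le_one
        · intro q hq
          have hq2 : (2 : ℝ) ≤ q := by exact_mod_cast (hP q (Finset.mem_insert_of_mem hq)).two_le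
          rw [sub_nonneg, div_le_one (by linarith)]; linarith
        · intro q hq
          have : 0 ≤ 1 / (q : ℝ) := by positivity
          linarith
      have h2 : 0 ≤ ∏ p ∈ P, (1 - 1 / (p : ℝ)) := by
        apply Finset.prod_nonneg
        intro q hq
        have hq2 : (2 : ℝ) ≤ q := by exact_mod_cast (hP q (Finset.mem_insert_of_mem hq)).two_le
        rw [sub_nonneg, div_le_one (by linarith)]; linarith
      calc (1 - 1 / (p : ℝ)) * ∏ p ∈ P, (1 - 1 / (p : ℝ)) ≤ 1 * 1 := mul_le_mul hx1 h1 h2 (by norm_num)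
        _ = 1 := by norm_num
    | succ h =>
      rw [alt_insert _ _ _ hp]
      have h1 := ih' (h + 1)
      have h2 := ih' h
      have h3 : 0 ≤ 1 / (p : ℝ) := by positivity
      have h4 := mul_nonneg h3 h2
      have : (-1 : ℝ) ^ (h + 1) * (alt (h + 1) P - 1 / (p : ℝ) * alt h P - (1 - 1 / (p : ℝ)) * ∏ p ∈ P, (1 - 1 / (p : ℝ))) =
        (-1 : ℝ) ^ (h + 1) * (alt (h + 1) P - ∏ p ∈ P, (1 - 1 / (p : ℝ))) +
          1 / (p : ℝ) * ((-1 : ℝ) ^ h * (alt h P - ∏ p ∈ P, (1 - 1 / (p : ℝ)))) := by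
        ring
      rw [this]
      linarith

lemma alt_even_ge (P : Finset ℕ) (hP : ∀ p ∈ P, p.Prime) (t : ℕ) (hS : ∑ p ∈ P, (1 / (p : ℝ)) ≤ 4) :
    Real.exp (-8) ≤ alt (2 * t) P := by
  have h1 := alt_bonf P hP (2 * t)
  rw [pow_mul, neg_one_sq, one_pow, one_mul, sub_nonneg] at h1
  refine le_trans ?_ h1
  have h2 : Real.exp (∑ p ∈ P, (-2 * (1 / (p : ℝ)))) ≤ ∏ p ∈ P, (1 - 1 / (p : ℝ)) := by
    rw [Real.exp_sum]
    apply Finset.prod_le_prod
    · intro p _; positivity
    · intro p hp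
      have hp2 : (2 : ℝ) ≤ p := by exact_mod_cast (hP p hp).two_le
      set x : ℝ := 1 / (p : ℝ) with hx
      have hx0 : 0 ≤ x := by positivity
      have hx1 : x ≤ 1 / 2 := by
        rw [hx]; apply one_div_le_one_div_of_le (by norm_num) hp2
      have e1 : 2 * x + 1 ≤ Real.exp (2 * x) := Real.add_one_le_exp _
      have e2 : Real.exp (-2 * x) * Real.exp (2 * x) = 1 := by
        rw [← Real.exp_add]; simp
      have e3 : 0 < Real.exp (-2 * x) := Real.exp_pos _
      have e4 : 0 < Real.exp (2 * x) := Real.exp_pos _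
      have e5 : 1 ≤ (1 - x) * Real.exp (2 * x) := by
        calc (1 : ℝ) ≤ (1 - x) * (2 * x + 1) := by nlinarith
          _ ≤ (1 - x) * Real.exp (2 * x) := by
            apply mul_le_mul_of_nonneg_left e1; linarith
      nlinarith
  refine le_trans ?_ h2
  apply Real.exp_le_exp.2
  rw [← Finset.mul_sum]
  linarith

lemma es_nonneg (h : ℕ) (P : Finset ℕ) : 0 ≤ es h P := by
  unfold es
  exact Finset.sum_nonneg fun D _ => by positivity

lemma es_le (P : Finset ℕ) (h : ℕ) (hS : ∑ p ∈ P, (1 / (p : ℝ)) ≤ 4) :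
    es h P ≤ Real.exp 32 / 8 ^ h := by
  rw [le_div_iff₀ (by positivity)]
  have h1 : es h P * 8 ^ h ≤ ∏ p ∈ P, (1 + 8 * (1 / (p : ℝ))) := by
    rw [Finset.prod_one_add, es, Finset.sum_mul]
    calc ∑ D ∈ P.powersetCard h, 1 / (∏ p ∈ D, (p : ℝ)) * 8 ^ h = ∑ D ∈ P.powersetCard h, ∏ p ∈ D, (8 * (1 / (p : ℝ))) := by
          refine Finset.sum_congr rfl fun D hD => ?_
          rw [Finset.mem_powersetCard] at hD
          rw [Finset.prod_mul_distrib, Finset.prod_const, hD.2, Finset.prod_div_distrib, Finset.prod_const_one]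
          ring
      _ ≤ ∑ D ∈ P.powerset, ∏ p ∈ D, (8 * (1 / (p : ℝ))) := by
          apply Finset.sum_le_sum_of_subset_of_nonneg
          · intro D hD
            rw [Finset.mem_powersetCard] at hD
            exact Finset.mem_powerset.2 hD.1
          · intro D _ _
            exact Finset.prod_nonneg fun p _ => by positivity
  refine h1.trans ?_
  calc ∏ p ∈ P, (1 + 8 * (1 / (p : ℝ))) ≤ ∏ p ∈ P, Real.exp (8 * (1 / (p : ℝ))) := by
        apply Finset.prod_le_prod
        · intro p _; positivity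
        · intro p _
          have := Real.add_one_le_exp (8 * (1 / (p : ℝ)))
          linarith
    _ = Real.exp (∑ p ∈ P, 8 * (1 / (p : ℝ))) := (Real.exp_sum _ _).symm
    _ ≤ Real.exp 32 := by
        apply Real.exp_le_exp.2
        rw [← Finset.mul_sum]; linarith

/-- key ratio -/
lemma es_ratio (P : Finset ℕ) (hP : ∀ p ∈ P, p.Prime) (u : ℕ) (hS : ∑ p ∈ P, (1 / (p : ℝ)) ≤ 4) :
    es (2 * (12 + u) + 1) P ≤ (1 / 8) / 2 ^ u * alt (2 * (12 + u)) P := by
  have h1 := es_le P (2 * (12 + u) + 1) hS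
  have h2 := alt_even_ge P hP (12 + u) hS
  have h3 : Real.exp 1 ≤ 3 := by
    have := Real.exp_one_lt_d9; linarith
  have h4 : Real.exp 40 ≤ 3 ^ 40 := by
    have : Real.exp 40 = Real.exp 1 ^ 40 := by rw [← Real.exp_nat_mul]; norm_num
    rw [this]; exact pow_le_pow_left₀ (Real.exp_pos _).le h3 _
  have h5 : Real.exp 32 / 8 ^ (2 * (12 + u) + 1) ≤ (1 / 8) / 2 ^ u * Real.exp (-8) := by
    have e1 : Real.exp 32 = Real.exp 40 * Real.exp (-8) := by rw [← Real.exp_add]; norm_num
    rw [e1, mul_div_right_comm]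
    apply mul_le_mul_of_nonneg_right _ (Real.exp_pos _).le
    rw [div_le_div_iff₀ (by positivity) (by positivity)]
    have e2 : (8 : ℝ) ^ (2 * (12 + u) + 1) = 8 * 64 ^ 12 * 64 ^ u := by
      rw [pow_succ, pow_mul, pow_add]; norm_num; ring
    rw [e2]
    have e3 : (2 : ℝ) ^ u ≤ 64 ^ u := pow_le_pow_left₀ (by norm_num) (by norm_num) _
    calc Real.exp 40 * 2 ^ u ≤ 3 ^ 40 * 64 ^ u := by
          apply mul_le_mul h4 e3 (by positivity) (by positivity)
      _ ≤ (1 / 8) * (8 * 64 ^ 12 * 64 ^ u) := by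
          have : (3 : ℝ) ^ 40 ≤ 64 ^ 12 := by norm_num
          have h64 : (0 : ℝ) < 64 ^ u := by positivity
          nlinarith
  refine h1.trans (h5.trans ?_)
  exact mul_le_mul_of_nonneg_left h2 (by positivity)

end Pool.Agent.H3.Sv
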